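import Mathlib

set_option autoImplicit false

/-!
A brachymorphism from a unital nonassociative ring of characteristic two to the field with two
elements which is not additive.
-/

namespace Pool.Agent.Results.MP_041051_al.NotAdditive

/-- The nonassociative algebra over the field with two elements, with basis `e 0, e 1, ...` and
products `e i * e j = e (Nat.pair i j + 2)`. It is freely generated by `e 0` and `e 1`. -/
structure N where
  /-- the coordinates -/
  c : ℕ →₀ ZMod 2

namespace N

theorem c_injective : Function.Injective c := by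
  rintro ⟨a⟩ ⟨b⟩ h
  exact congrArg N.mk h

noncomputable instance : Zero N := ⟨⟨0⟩⟩
noncomputable instance : Add N := ⟨fun a b => ⟨a.c + b.c⟩⟩
noncomputable instance : Neg N := ⟨fun a => ⟨-a.c⟩⟩
noncomputable instance : Sub N := ⟨fun a b => ⟨a.c - b.c⟩⟩
noncomputable instance : SMul ℕ N := ⟨fun n a => ⟨n • a.c⟩⟩
noncomputable instance : SMul ℤ N := ⟨fun n a => ⟨n • a.c⟩⟩
noncomputable instance : SMul (ZMod 2) N := ⟨fun n a => ⟨n • a.c⟩⟩

noncomputable instance : AddCommGroup N :=
  c_injective.addCommGroup c rfl (fun _ _ => rfl) (fun _ => rfl) (fun _ _ => rfl)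
    (fun _ _ => rfl) (fun _ _ => rfl)

noncomputable instance : Module (ZMod 2) N :=
  c_injective.module (ZMod 2) ⟨⟨c, rfl⟩, fun _ _ => rfl⟩ (fun _ _ => rfl)

end N

/-- The coordinates. -/
def co (f : N) (k : ℕ) : ZMod 2 := f.c k

theorem co_zero (k : ℕ) : co 0 k = 0 := rfl
theorem co_add (f g : N) (k : ℕ) : co (f + g) k = co f k + co g k := rfl
theorem co_smul (c : ZMod 2) (f : N) (k : ℕ) : co (c • f) k = c * co f k := rfl
theorem ext' {f g : N} (h : ∀ k, co f k = co g k) : f = g := N.c_injective (Finsupp.ext h)

/-- The index of the product of two basis elements. -/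
def pr (i j : ℕ) : ℕ := Nat.pair i j + 2

theorem lt_pr_left (i j : ℕ) : i < pr i j := by
  have := Nat.left_le_pair i j
  unfold pr; omega

theorem lt_pr_right (i j : ℕ) : j < pr i j := by
  have := Nat.right_le_pair i j
  unfold pr; omega

theorem pr_inj {i j k l : ℕ} (h : pr i j = pr k l) : i = k ∧ j = l := by
  unfold pr at h
  have h' : Nat.pair i j = Nat.pair k l := by omega
  exact Nat.pair_eq_pair.1 h'

theorem pr_mono {i j k l : ℕ} (h1 : i ≤ k) (h2 : j ≤ l) : pr i j ≤ pr k l := by
  have h3 : Nat.pair i j ≤ Nat.pair k j := by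
    rcases h1.lt_or_eq with h | h
    · exact (Nat.pair_lt_pair_left j h).le
    · rw [h]
  have h4 : Nat.pair k j ≤ Nat.pair k l := by
    rcases h2.lt_or_eq with h | h
    · exact (Nat.pair_lt_pair_right k h).le
    · rw [h]
  unfold pr; omega

/-- The product. -/
noncomputable def mulN (f g : N) : N :=
  ⟨Finsupp.ofSupportFinite
    (fun k => if k < 2 then 0 else co f (Nat.unpair (k - 2)).1 * co g (Nat.unpair (k - 2)).2) (by
      classical
      apply Set.Finite.subset
        (((f.c.support ×ˢ g.c.support).image (fun t => pr t.1 t.2)).finite_toSet)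
      intro k hk
      rw [Function.mem_support] at hk
      by_cases hk2 : k < 2
      · rw [if_pos hk2] at hk
        exact absurd rfl hk
      · rw [if_neg hk2] at hk
        rw [Finset.mem_coe, Finset.mem_image]
        refine ⟨Nat.unpair (k - 2), ?_, ?_⟩
        · rw [Finset.mem_product, Finsupp.mem_support_iff, Finsupp.mem_support_iff]
          exact ⟨left_ne_zero_of_mul hk, right_ne_zero_of_mul hk⟩
        · unfold pr
          rw [Nat.pair_unpair]
          omega)⟩

noncomputable instance : Mul N := ⟨mulN⟩

theorem co_mul (f g : N) (k : ℕ) : co (f * g) k =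
    if k < 2 then 0 else co f (Nat.unpair (k - 2)).1 * co g (Nat.unpair (k - 2)).2 := rfl

theorem co_mul_pr (f g : N) (i j : ℕ) : co (f * g) (pr i j) = co f i * co g j := by
  rw [co_mul, if_neg (by unfold pr; omega)]
  have : pr i j - 2 = Nat.pair i j := by unfold pr; omega
  rw [this, Nat.unpair_pair]

noncomputable instance : NonUnitalNonAssocRing N :=
  { (inferInstance : AddCommGroup N), (inferInstance : Mul N) with
    left_distrib := fun a b c => by
      apply ext'; intro k; rw [co_add, co_mul, co_mul, co_mul]
      split_ifs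
      · rw [add_zero]
      · rw [co_add, mul_add]
    right_distrib := fun a b c => by
      apply ext'; intro k; rw [co_add, co_mul, co_mul, co_mul]
      split_ifs
      · rw [add_zero]
      · rw [co_add, add_mul]
    zero_mul := fun a => by
      apply ext'; intro k; rw [co_mul, co_zero]
      split_ifs
      · rfl
      · rw [co_zero, zero_mul]
    mul_zero := fun a => by
      apply ext'; intro k; rw [co_mul, co_zero]
      split_ifs
      · rfl
      · rw [co_zero, mul_zero] }

/-- The largest index in the support. -/
def lead (f : N) : ℕ := f.c.support.sup id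

theorem z2 (a : ZMod 2) (h : a ≠ 0) : a = 1 := by
  revert a; decide

theorem le_lead {f : N} {k : ℕ} (h : co f k ≠ 0) : k ≤ lead f :=
  Finset.le_sup (f := id) (Finsupp.mem_support_iff.2 h)

theorem co_of_lt {f : N} {k : ℕ} (h : lead f < k) : co f k = 0 := by
  by_contra hne
  exact absurd (le_lead hne) (by omega)

theorem co_lead {f : N} (h : f ≠ 0) : co f (lead f) = 1 := by
  have hne : f.c.support.Nonempty :=
    Finsupp.support_nonempty_iff.2 (fun h0 => h (N.c_injective h0))
  obtain ⟨k, hk, hk'⟩ := Finset.exists_mem_eq_sup f.c.support hne id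
  apply z2
  unfold lead
  rw [hk']
  exact Finsupp.mem_support_iff.1 hk

/-- The values that determine the map. -/
noncomputable def val (α β : ZMod 2) (n m : N) : N := α • m + β • n + n * m

theorem co_val (α β : ZMod 2) (n m : N) (k : ℕ) :
    co (val α β n m) k = α * co m k + β * co n k + co (n * m) k := rfl

theorem co_val_pr (α β : ZMod 2) (n m : N) (i j : ℕ) (hi : lead n < pr i j)
    (hj : lead m < pr i j) : co (val α β n m) (pr i j) = co n i * co m j := by
  rw [co_val, co_mul_pr, co_of_lt hi, co_of_lt hj]
  simp

theorem le_lead_val (α β : ZMod 2) {n m : N} (hn : n ≠ 0) (hm : m ≠ 0) :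
    pr (lead n) (lead m) ≤ lead (val α β n m) := by
  apply le_lead
  rw [co_val_pr _ _ _ _ _ _ (lt_pr_left _ _) (lt_pr_right _ _), co_lead hn, co_lead hm]
  decide

theorem lead_lt_left (α β : ZMod 2) {n m : N} (hn : n ≠ 0) (hm : m ≠ 0) :
    lead n < lead (val α β n m) :=
  (lt_pr_left _ _).trans_le (le_lead_val α β hn hm)

theorem lead_lt_right (α β : ZMod 2) {n m : N} (hn : n ≠ 0) (hm : m ≠ 0) :
    lead m < lead (val α β n m) :=
  (lt_pr_right _ _).trans_le (le_lead_val α β hn hm)

theorem not_lt_of_eq {α β γ δ : ZMod 2} {n m k l : N} (hn : n ≠ 0) (hm : m ≠ 0)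
    (h : val α β n m = val γ δ k l) :
    ¬ pr (lead k) (lead l) < pr (lead n) (lead m) := by
  intro hlt
  have h1 := congrArg (fun t => co t (pr (lead n) (lead m))) h
  have hk := lt_pr_left (lead k) (lead l)
  have hl := lt_pr_right (lead k) (lead l)
  rw [co_val_pr _ _ _ _ _ _ (lt_pr_left _ _) (lt_pr_right _ _),
    co_val_pr _ _ _ _ _ _ (by omega) (by omega), co_lead hn, co_lead hm] at h1
  have h2 : co k (lead n) ≠ 0 := by
    intro h; rw [h] at h1; simp at h1
  have h3 : co l (lead m) ≠ 0 := by
    intro h; rw [h] at h1; simp at h1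
  have := pr_mono (le_lead h2) (le_lead h3)
  omega

theorem lead_eq {α β γ δ : ZMod 2} {n m k l : N} (hn : n ≠ 0) (hm : m ≠ 0) (hk : k ≠ 0)
    (hl : l ≠ 0) (h : val α β n m = val γ δ k l) : lead n = lead k ∧ lead m = lead l := by
  apply pr_inj
  have h1 := not_lt_of_eq hn hm h
  have h2 := not_lt_of_eq hk hl h.symm
  omega

theorem char2 {m l : N} (h : m + l = 0) : m = l := by
  apply ext'
  intro k
  have h1 := congrArg (fun t => co t k) h
  simp only [co_add, co_zero] at h1
  generalize co m k = a at h1
  generalize co l k = b at h1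
  revert a b
  decide

theorem right_case {α β γ δ : ZMod 2} {n m k l : N} (hn : n ≠ 0) (hm : m ≠ 0) (hk : k ≠ 0)
    (hl : l ≠ 0) (h : val α β n m = val γ δ k l) (hml : m + l ≠ 0) :
    α = γ + 1 ∧ lead n < lead m := by
  obtain ⟨e1, e2⟩ := lead_eq hn hm hk hl h
  set K := pr (lead n) (lead (m + l)) with hK
  have hKn : lead n < K := lt_pr_left _ _
  have hKk : lead k < K := by rw [← e1]; exact hKn
  have h1 := congrArg (fun t => co t K) h
  simp only [co_val] at h1
  rw [hK, co_mul_pr, co_mul_pr, ← hK, co_of_lt hKn, co_of_lt hKk, co_lead hn] at h1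
  have hkk : co k (lead n) = 1 := by rw [e1]; exact co_lead hk
  rw [hkk] at h1
  have h2 : co m (lead (m + l)) + co l (lead (m + l)) = 1 := by
    rw [← co_add]; exact co_lead hml
  have h3 : co m K + co l K = 0 := by
    rw [← co_add]; exact co_of_lt (lt_pr_right _ _)
  have h4 : α = γ + 1 ∧ co m K = 1 := by
    clear h
    revert h1 h2 h3
    generalize co m K = a1
    generalize co l K = a2
    generalize co m (lead (m + l)) = a3
    generalize co l (lead (m + l)) = a4
    revert α γ β δ a1 a2 a3 a4
    decide
  refine ⟨h4.1, ?_⟩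
  have h5 : K ≤ lead m := le_lead (by rw [h4.2]; decide)
  omega

theorem left_case {α β γ δ : ZMod 2} {n m k l : N} (hn : n ≠ 0) (hm : m ≠ 0) (hk : k ≠ 0)
    (hl : l ≠ 0) (h : val α β n m = val γ δ k l) (hnk : n + k ≠ 0) :
    β = δ + 1 ∧ lead m < lead n := by
  obtain ⟨e1, e2⟩ := lead_eq hn hm hk hl h
  set K := pr (lead (n + k)) (lead m) with hK
  have hKm : lead m < K := lt_pr_right _ _
  have hKl : lead l < K := by rw [← e2]; exact hKm
  have h1 := congrArg (fun t => co t K) h
  simp only [co_val] at h1
  rw [hK, co_mul_pr, co_mul_pr, ← hK, co_of_lt hKm, co_of_lt hKl, co_lead hm] at h1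
  have hll : co l (lead m) = 1 := by rw [e2]; exact co_lead hl
  rw [hll] at h1
  have h2 : co n (lead (n + k)) + co k (lead (n + k)) = 1 := by
    rw [← co_add]; exact co_lead hnk
  have h3 : co n K + co k K = 0 := by
    rw [← co_add]; exact co_of_lt (lt_pr_left _ _)
  have h4 : β = δ + 1 ∧ co n K = 1 := by
    clear h
    revert h1 h2 h3
    generalize co n K = a1
    generalize co k K = a2
    generalize co n (lead (n + k)) = a3
    generalize co k (lead (n + k)) = a4
    revert α γ β δ a1 a2 a3 a4
    decide
  refine ⟨h4.1, ?_⟩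
  have h5 : K ≤ lead n := le_lead (by rw [h4.2]; decide)
  omega

/-- The coincidences between the values. -/
theorem coincidence {α β γ δ : ZMod 2} {n m k l : N} (hn : n ≠ 0) (hm : m ≠ 0) (hk : k ≠ 0)
    (hl : l ≠ 0) (h : val α β n m = val γ δ k l) :
    (n = k ∧ m = l ∧ α = γ ∧ β = δ) ∨ (n = k ∧ m = l ∧ n = m ∧ α = γ + 1 ∧ β = δ + 1) ∨
    (n = k ∧ m + l ≠ 0 ∧ α = γ + 1 ∧ m = val γ (β + δ) n (m + l) ∧
      l = val α (β + δ) n (m + l)) ∨
    (m = l ∧ n + k ≠ 0 ∧ β = δ + 1 ∧ n = val (α + γ) δ (n + k) m ∧
      k = val (α + γ) β (n + k) m) := by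
  by_cases hml : m + l = 0
  · by_cases hnk : n + k = 0
    · have e1 := char2 hml
      have e2 := char2 hnk
      subst e1 e2
      have h1 : ∀ j, (α + γ) * co m j = (β + δ) * co n j := by
        intro j
        have h2 := congrArg (fun t => co t j) h
        simp only [co_val] at h2
        revert h2
        generalize co n j = a1
        generalize co m j = a2
        generalize co (n * m) j = a3
        clear h hml hnk
        revert α γ β δ a1 a2 a3
        decide
      have h3 := h1 (lead m)
      have h4 := h1 (lead n)
      rw [co_lead hm] at h3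
      rw [co_lead hn] at h4
      by_cases hαγ : α + γ = 0
      · left
        rw [hαγ] at h4
        refine ⟨rfl, rfl, ?_, ?_⟩
        · clear h h1 h3 h4; revert α γ; decide
        · clear h h1 h3 hαγ; revert h4; generalize co m (lead n) = a; revert β δ a; decide
      · right; left
        have h5 : α + γ = 1 := z2 _ hαγ
        have h6 : β + δ = 1 := by
          apply z2
          intro h0
          rw [h5, h0] at h3
          simp at h3
        refine ⟨rfl, rfl, ?_, ?_, ?_⟩
        · apply ext'
          intro j
          have h7 := h1 j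
          rw [h5, h6, one_mul, one_mul] at h7
          exact h7.symm
        · clear h h1 h3 h4 hαγ; revert h5; revert α γ; decide
        · clear h h1 h3 h4 hαγ; revert h6; revert β δ; decide
    · right; right; right
      obtain ⟨e1, _⟩ := left_case hn hm hk hl h hnk
      have e2 := char2 hml
      subst e2
      refine ⟨rfl, hnk, e1, ?_, ?_⟩
      · apply ext'
        intro j
        have h2 := congrArg (fun t => co t j) h
        simp only [co_val] at h2 ⊢
        rw [co_add n k, show (n + k) * m = n * m + k * m from add_mul n k m, co_add]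
        revert h2
        generalize co n j = a1
        generalize co m j = a2
        generalize co (n * m) j = a3
        generalize co k j = a4
        generalize co (k * m) j = a5
        clear h hml hnk
        revert α γ β δ a1 a2 a3 a4 a5
        decide
      · apply ext'
        intro j
        have h2 := congrArg (fun t => co t j) h
        simp only [co_val] at h2 ⊢
        rw [co_add n k, show (n + k) * m = n * m + k * m from add_mul n k m, co_add]
        revert h2
        generalize co n j = a1
        generalize co m j = a2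
        generalize co (n * m) j = a3
        generalize co k j = a4
        generalize co (k * m) j = a5
        clear h hml hnk
        revert α γ β δ a1 a2 a3 a4 a5
        decide
  · obtain ⟨e1, e2⟩ := right_case hn hm hk hl h hml
    have hnk : n + k = 0 := by
      by_contra hnk
      obtain ⟨_, e3⟩ := left_case hn hm hk hl h hnk
      omega
    have e3 := char2 hnk
    subst e3
    right; right; left
    refine ⟨rfl, hml, e1, ?_, ?_⟩
    · apply ext'
      intro j
      have h2 := congrArg (fun t => co t j) h
      simp only [co_val] at h2 ⊢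
      rw [co_add m l, show n * (m + l) = n * m + n * l from mul_add n m l, co_add]
      revert h2
      generalize co n j = a1
      generalize co m j = a2
      generalize co (n * m) j = a3
      generalize co l j = a4
      generalize co (n * l) j = a5
      clear h hml hnk
      revert α γ β δ a1 a2 a3 a4 a5
      decide
    · apply ext'
      intro j
      have h2 := congrArg (fun t => co t j) h
      simp only [co_val] at h2 ⊢
      rw [co_add m l, show n * (m + l) = n * m + n * l from mul_add n m l, co_add]
      revert h2
      generalize co n j = a1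
      generalize co m j = a2
      generalize co (n * m) j = a3
      generalize co l j = a4
      generalize co (n * l) j = a5
      clear h hml hnk
      revert α γ β δ a1 a2 a3 a4 a5
      decide

/-- A factorization of an element, up to lower terms. -/
def Fac (w : N) (t : (ZMod 2 × ZMod 2) × (N × N)) : Prop :=
  t.2.1 ≠ 0 ∧ t.2.2 ≠ 0 ∧ w = val t.1.1 t.1.2 t.2.1 t.2.2

theorem Fac.left {w : N} {t : (ZMod 2 × ZMod 2) × (N × N)} (h : Fac w t) :
    lead t.2.1 < lead w := by
  obtain ⟨h1, h2, h3⟩ := h
  rw [h3]
  exact lead_lt_left _ _ h1 h2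

theorem Fac.right {w : N} {t : (ZMod 2 × ZMod 2) × (N × N)} (h : Fac w t) :
    lead t.2.2 < lead w := by
  obtain ⟨h1, h2, h3⟩ := h
  rw [h3]
  exact lead_lt_right _ _ h1 h2

/-- The generators. -/
noncomputable def e (i : ℕ) : N := ⟨Finsupp.single i 1⟩

open Classical in
/-- The map on the nonunital part. -/
noncomputable def F (w : N) : ZMod 2 :=
  if h : ∃ t, Fac w t then
    F h.choose.2.1 * F h.choose.2.2 + h.choose.1.1 * F h.choose.2.2 + h.choose.1.2 * F h.choose.2.1
  else if w = e 0 + e 1 then 1 else 0
termination_by lead w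
decreasing_by
  · exact Fac.left h.choose_spec
  · exact Fac.right h.choose_spec

theorem F_val_aux (d : ℕ) : ∀ (α β : ZMod 2) (n m : N), n ≠ 0 → m ≠ 0 →
    lead (val α β n m) = d → F (val α β n m) = F n * F m + α * F m + β * F n := by
  induction d using Nat.strong_induction_on with
  | _ d ih =>
    intro α β n m hn hm hd
    have hex : ∃ t, Fac (val α β n m) t := ⟨((α, β), (n, m)), hn, hm, rfl⟩
    rw [F, dif_pos hex]
    obtain ⟨hk, hl, h⟩ := hex.choose_spec
    generalize hex.choose = t at hk hl h
    obtain ⟨⟨γ, δ⟩, k, l⟩ := t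
    simp only at hk hl h ⊢
    have hmd : lead m < d := by rw [← hd]; exact lead_lt_right _ _ hn hm
    have hnd : lead n < d := by rw [← hd]; exact lead_lt_left _ _ hn hm
    have hld : lead l < d := by rw [← hd, h]; exact lead_lt_right _ _ hk hl
    have hkd : lead k < d := by rw [← hd, h]; exact lead_lt_left _ _ hk hl
    rcases coincidence hn hm hk hl h with ⟨rfl, rfl, rfl, rfl⟩ | ⟨rfl, rfl, rfl, e1, e2⟩ |
      ⟨rfl, h0, e1, e2, e3⟩ | ⟨rfl, h0, e1, e2, e3⟩
    · rfl
    · generalize F n = a
      clear h hex ih hd
      subst e1 e2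
      revert γ δ a
      decide
    · have f1 := ih (lead m) hmd γ (β + δ) n (m + l) hn h0 (by rw [← e2])
      have f2 := ih (lead l) hld α (β + δ) n (m + l) hn h0 (by rw [← e3])
      rw [← e2] at f1
      rw [← e3] at f2
      rw [f1, f2]
      generalize F n = a
      generalize F (m + l) = b
      clear h hex ih f1 f2 e2 e3 hd
      subst e1
      revert γ δ β a b
      decide
    · have f1 := ih (lead n) hnd (α + γ) δ (n + k) m h0 hm (by rw [← e2])
      have f2 := ih (lead k) hkd (α + γ) β (n + k) m h0 hm (by rw [← e3])
      rw [← e2] at f1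
      rw [← e3] at f2
      rw [f1, f2]
      generalize F m = a
      generalize F (n + k) = b
      clear h hex ih f1 f2 e2 e3 hd
      subst e1
      revert γ δ α a b
      decide

theorem lead_ge {w : N} {t : (ZMod 2 × ZMod 2) × (N × N)} (h : Fac w t) : 2 ≤ lead w := by
  obtain ⟨h1, h2, h3⟩ := h
  have h4 := le_lead_val t.1.1 t.1.2 h1 h2
  rw [← h3] at h4
  unfold pr at h4
  omega

theorem F_atom {w : N} (h : lead w < 2) (hw : w ≠ e 0 + e 1) : F w = 0 := by
  rw [F, dif_neg, if_neg hw]
  rintro ⟨t, ht⟩
  have := lead_ge ht
  omega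

theorem co_e (i j : ℕ) : co (e i) j = if i = j then 1 else 0 := Finsupp.single_apply

theorem lead_lt_two {w : N} (h : ∀ k, 2 ≤ k → co w k = 0) : lead w < 2 := by
  by_contra h2
  by_cases hw : w = 0
  · subst hw
    exact h2 (by change (0 : ℕ →₀ ZMod 2).support.sup id < 2; simp)
  · have h3 := co_lead hw
    rw [h _ (by omega)] at h3
    exact absurd h3 (by decide)

theorem F_zero : F 0 = 0 := by
  apply F_atom
  · exact lead_lt_two (fun k _ => co_zero k)
  · intro h
    have h1 := congrArg (fun t => co t 0) h
    simp only [co_zero, co_add, co_e] at h1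
    exact absurd h1 (by decide)

theorem F_e0 : F (e 0) = 0 := by
  apply F_atom
  · exact lead_lt_two (fun k hk => by rw [co_e, if_neg (by omega)])
  · intro h
    have h1 := congrArg (fun t => co t 1) h
    simp only [co_add, co_e] at h1
    exact absurd h1 (by decide)

theorem F_e1 : F (e 1) = 0 := by
  apply F_atom
  · exact lead_lt_two (fun k hk => by rw [co_e, if_neg (by omega)])
  · intro h
    have h1 := congrArg (fun t => co t 0) h
    simp only [co_add, co_e] at h1
    exact absurd h1 (by decide)

theorem F_sum : F (e 0 + e 1) = 1 := by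
  rw [F, dif_neg, if_pos rfl]
  rintro ⟨t, ht⟩
  have h1 := lead_ge ht
  have h2 : lead (e 0 + e 1) < 2 := lead_lt_two (fun k hk => by
    rw [co_add, co_e, co_e, if_neg (by omega), if_neg (by omega), add_zero])
  omega

theorem F_val (α β : ZMod 2) (n m : N) :
    F (val α β n m) = F n * F m + α * F m + β * F n := by
  by_cases hn : n = 0
  · subst hn
    have : val α β 0 m = α • m := by
      unfold val; rw [smul_zero, zero_mul, add_zero, add_zero]
    rw [this, F_zero]
    by_cases hα : α = 0
    · subst hα; simp [F_zero]
    · rw [z2 α hα]; simp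
  · by_cases hm : m = 0
    · subst hm
      have : val α β n 0 = β • n := by
        unfold val; rw [smul_zero, mul_zero, add_zero, zero_add]
      rw [this, F_zero]
      by_cases hβ : β = 0
      · subst hβ; simp [F_zero]
      · rw [z2 β hβ]; simp
    · exact F_val_aux _ α β n m hn hm rfl

/-- The brachymorphism. -/
noncomputable def brachy (r : Unitization (ZMod 2) N) : ZMod 2 := r.fst + F r.snd

/-- There are a unital nonassociative ring and a map from it to the field with two elements
preserving the successor and the multiplication but not the addition. -/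
theorem result : ∃ (R : Type) (_ : NonAssocRing R) (f : R → ZMod 2),
    (∀ x, f (1 + x) = 1 + f x) ∧ (∀ x y, f (x * y) = f x * f y) ∧
      ∃ x y, f (x + y) ≠ f x + f y := by
  refine ⟨Unitization (ZMod 2) N, inferInstance, brachy, ?_, ?_, ?_⟩
  · intro x
    unfold brachy
    rw [Unitization.fst_add, Unitization.snd_add, Unitization.fst_one, Unitization.snd_one,
      zero_add, add_assoc]
  · intro x y
    unfold brachy
    have h1 := F_val x.fst y.fst x.snd y.snd
    have h2 : (x * y).snd = val x.fst y.fst x.snd y.snd := Unitization.snd_mul x y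
    rw [Unitization.fst_mul, h2, h1]
    ring
  · refine ⟨Unitization.inr (e 0), Unitization.inr (e 1), ?_⟩
    unfold brachy
    rw [← Unitization.inr_add, Unitization.fst_inr, Unitization.fst_inr, Unitization.fst_inr,
      Unitization.snd_inr, Unitization.snd_inr, Unitization.snd_inr, F_sum, F_e0, F_e1]
    decide

end Pool.Agent.Results.MP_041051_al.NotAdditive
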